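import Pool.Agent.Helper70.Isg.Goals2

/-!
# FKG inequality of the random cluster model (packet FKFKG of MP_600500_pr)
-/

noncomputable section

namespace Pool.Agent.Helper97.Isg

open Pool.Agent.Helper70.Isg

variable {V ι : Type}

theorem cs_union [DecidableEq ι] (a b : ι → Option V) (w w' : Finset ι) :
    cs a b (w ∪ w') = cs a b w ⊓ cs a b w' := by
  ext x
  constructor
  · intro hx
    refine ⟨fun e he => hx e (Finset.mem_union_left _ he),
      fun e he => hx e (Finset.mem_union_right _ he)⟩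
  · rintro ⟨h1, h2⟩ e he
    rcases Finset.mem_union.1 he with h | h
    · exact h1 e h
    · exact h2 e h

theorem cs_anti (a b : ι → Option V) {w w' : Finset ι} (h : w ⊆ w') :
    cs a b w' ≤ cs a b w := fun _ hx e he => hx e (h he)

theorem cs_sup_le [DecidableEq ι] (a b : ι → Option V) (w w' : Finset ι) :
    cs a b w ⊔ cs a b w' ≤ cs a b (w ∩ w') :=
  sup_le (cs_anti a b Finset.inter_subset_left) (cs_anti a b Finset.inter_subset_right)

theorem card_mul_card [Fintype V] (P Q : Submodule (ZMod 2) (V → ZMod 2)) :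
    Nat.card P * Nat.card Q = Nat.card ↥(P ⊔ Q) * Nat.card ↥(P ⊓ Q) := by
  rw [Module.natCard_eq_pow_finrank (K := ZMod 2) (V := P),
    Module.natCard_eq_pow_finrank (K := ZMod 2) (V := Q),
    Module.natCard_eq_pow_finrank (K := ZMod 2) (V := ↥(P ⊔ Q)),
    Module.natCard_eq_pow_finrank (K := ZMod 2) (V := ↥(P ⊓ Q)), ← pow_add, ← pow_add,
    Submodule.finrank_sup_add_finrank_inf_eq]

theorem card_cs_mul [Fintype V] [DecidableEq ι] (a b : ι → Option V) (w w' : Finset ι) :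
    Nat.card (cs a b w) * Nat.card (cs a b w') ≤
      Nat.card (cs a b (w ∩ w')) * Nat.card (cs a b (w ∪ w')) := by
  rw [card_mul_card, cs_union]
  refine Nat.mul_le_mul_right _ ?_
  exact Nat.card_le_card_of_injective _ (Submodule.inclusion_injective (cs_sup_le a b w w'))

theorem fkfkg : S_FKFKG := by
  intro V ι _ _ _ _ a b r f g hr hf hg hfm hgm
  have h0 : ∀ w : Finset ι, 0 ≤ fw a b r w := fun w =>
    mul_nonneg (Finset.prod_nonneg fun e _ => hr e) (Nat.cast_nonneg _)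
  refine fkg (f := f) (g := g) (μ := fw a b r) h0 hf hg hfm hgm ?_
  intro w w'
  show fw a b r w * fw a b r w' ≤ fw a b r (w ∩ w') * fw a b r (w ∪ w')
  unfold fw
  have hprod : (∏ e ∈ w ∪ w', r e) * ∏ e ∈ w ∩ w', r e = (∏ e ∈ w, r e) * ∏ e ∈ w', r e :=
    Finset.prod_union_inter
  have hP : 0 ≤ (∏ e ∈ w, r e) * ∏ e ∈ w', r e :=
    mul_nonneg (Finset.prod_nonneg fun e _ => hr e) (Finset.prod_nonneg fun e _ => hr e)
  have hc : (Nat.card (cs a b w) : ℝ) * (Nat.card (cs a b w') : ℝ) ≤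
      (Nat.card (cs a b (w ∩ w')) : ℝ) * (Nat.card (cs a b (w ∪ w')) : ℝ) := by
    exact_mod_cast card_cs_mul a b w w'
  calc (∏ e ∈ w, r e) * (Nat.card (cs a b w) : ℝ) * ((∏ e ∈ w', r e) * (Nat.card (cs a b w') : ℝ))
      = ((∏ e ∈ w, r e) * ∏ e ∈ w', r e) *
          ((Nat.card (cs a b w) : ℝ) * (Nat.card (cs a b w') : ℝ)) := by ring
    _ ≤ ((∏ e ∈ w, r e) * ∏ e ∈ w', r e) *
          ((Nat.card (cs a b (w ∩ w')) : ℝ) * (Nat.card (cs a b (w ∪ w')) : ℝ)) :=
        mul_le_mul_of_nonneg_left hc hP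
    _ = (∏ e ∈ w ∩ w', r e) * (Nat.card (cs a b (w ∩ w')) : ℝ) *
          ((∏ e ∈ w ∪ w', r e) * (Nat.card (cs a b (w ∪ w')) : ℝ)) := by
        rw [← hprod]; ring

end Pool.Agent.Helper97.Isg
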